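import Pool.Agent.H751.WR.Main

/-!
# Rank rigidity for CAT(0) groups acting on finite-dimensional cube complexes with a convex cocompact
# hyperplane stabiliser which contains a rank one element

Let `G` act geometrically on a geodesically complete proper CAT(0) space `X`, and let `G` also act
on a finite-dimensional CAT(0) cube complex `Y`, or on any discrete wall space.  The action on `Y`
need not be proper or cocompact, and `Y` need not be locally finite; `Y` has nothing to do with `X`.
Let `h' ⊆ h` be two half-spaces of `Y` (possibly `h' = h`), such that some `p` in `G` moves the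
complement of `h'` into `h'`, and some `q` in `G` moves `h` into the complement of `h` (both
strictly); by the flipping lemma of Caprace and Sageev such elements exist for all half-spaces if
`Y` is essential and `G` has no fixed point at infinity.  Assume that the common stabiliser `K` of
`h` and `h'` is convex cocompact in `X`: it acts cocompactly on a closed convex subset `B` of `X`,
and that some element of `K` is a rank one isometry of `B` (for instance `K` is infinite and
hyperbolic).  Theorem: `G` contains a rank one isometry of `X`, or `X` is a product of two spaces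
with more than one point, one of which is a closed convex subset of `B`.

If `K` is finite then the first alternative holds by known results (Chatterji-Martin, Sisto); for
trees the theorem is known from an earlier run (`ConvexCocompactEdgeGroups`).

Idea of the proof.
(1) (`Crit.lean`) If `f` skewers a half-space `U`, that is `f U ⊂ U`, and the common stabiliser of
`U` and `f ^ n U` is finite, then `f` is a rank one isometry of `X`: otherwise an axis of `f` bounds
a flat half-plane, there are detours of linear length around large balls, they cross the walls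
`f ^ (nk) U`, two consecutive crossings are often close to each other, and the pigeonhole principle
gives infinitely many elements which stabilise both `U` and `f ^ n U`.
(2) If `h₁ h ⊂ h'` and `h₂ h ⊂ h'`, and `K ∩ h₁⁻¹Kh₁` and `K ∩ h₂Kh₂⁻¹` both contain no power of some
conjugate of the rank one element, then north-south dynamics on `B` gives `g` in `K` such that
`K ∩ h₁⁻¹Kh₁ ∩ g(h₂Kh₂⁻¹)g⁻¹` is finite; this is a subgroup of finite index of the common
stabiliser of `U = h₁⁻¹ h` and `f² U` for `f = g h₂ h₁`, which skewers `U`.
(3) Otherwise, let `H` be the subgroup of all `g` such that `B` and `gB` are at finite Hausdorff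
distance.  It contains all `g` for which the pairs `(h, h')` and `g(h, h')` are nested.  If `u` is
not in `H` then all four corners of `h` and `u h` are nonempty, so half-spaces from different
cosets of `H` are transverse, and `H` has finite index in `G` since `Y` has finite dimension.
(4) A subgroup of finite index of `G` moves `B` to sets at finite distance only, so `X` splits.
-/

set_option autoImplicit false

namespace Pool.Agent.Results.MP_ff40e8_al.ConvexCocompactWalls

open Set Metric Pointwise

/-- The inequality of Bruhat and Tits: a complete metric space is CAT(0) if and only if any two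
points `p`, `q` have a midpoint `m` such that
`d(x, m)² ≤ (d(x, p)² + d(x, q)²) / 2 - d(p, q)² / 4` for all `x`. -/
def BruhatTits (X : Type) [MetricSpace X] : Prop := ∀ p q : X, ∃ m : X, ∀ x : X,
  dist x m ^ 2 ≤ (dist x p ^ 2 + dist x q ^ 2) / 2 - dist p q ^ 2 / 4

/-- Every geodesic segment extends to a geodesic line: for `p ≠ q` there is a line through `p` and
`q` (in a CAT(0) space it contains the unique geodesic segment from `p` to `q`). -/
def GeodesicallyComplete (X : Type) [MetricSpace X] : Prop :=
  ∀ p q : X, p ≠ q → ∃ c : ℝ → X, Isometry c ∧ c 0 = p ∧ c (dist p q) = q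

/-- The line `c` bounds a flat half-plane in the subset `B`: there is an isometric embedding `H`
of the Euclidean half-plane `ℝ × [0, ∞)` in `X`, with image in `B`, which extends `c`. -/
def BoundsHalfPlaneIn {X : Type} [MetricSpace X] (B : Set X) (c : ℝ → X) : Prop :=
  ∃ H : ℝ × NNReal → X,
    (∀ p q : ℝ × NNReal, dist (H p) (H q) ^ 2 = (p.1 - q.1) ^ 2 + ((p.2 : ℝ) - q.2) ^ 2) ∧
    (∀ p : ℝ × NNReal, H p ∈ B) ∧ ∀ t : ℝ, H (t, 0) = c t

/-- `g` translates a geodesic line `c` in `B` by `τ > 0`, and this axis does not bound a flat
half-plane in `B`.  For `B = univ` this says that `g` is a rank one isometry of `X`, and for an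
invariant closed convex set `B` it says that `g` is a rank one isometry of `B`. -/
def IsRankOneIn {X : Type} [MetricSpace X] {G : Type} [Group G] [MulAction G X] (B : Set X)
    (g : G) : Prop :=
  ∃ (τ : ℝ) (c : ℝ → X), 0 < τ ∧ Isometry c ∧ (∀ t, c t ∈ B) ∧ (∀ t, g • c t = c (t + τ)) ∧
    ¬ BoundsHalfPlaneIn B c

/-- `B` is a nonempty closed convex subset of `X`, preserved by the subgroup `K`, which acts
cocompactly on `B`. -/
def ConvexCocompact {X : Type} [MetricSpace X] {G : Type} [Group G] [MulAction G X]
    (K : Subgroup G) (B : Set X) : Prop :=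
  B.Nonempty ∧ IsClosed B ∧
    (∀ p ∈ B, ∀ q ∈ B, ∀ m, dist p m + dist m q = dist p q → m ∈ B) ∧
    (∀ g ∈ K, ∀ x ∈ B, g • x ∈ B) ∧
    ∃ C : Set X, IsCompact C ∧ ∀ x ∈ B, ∃ g ∈ K, g • x ∈ C

/-- Any two points `v`, `w` of the `G`-set `V` are separated by finitely many translates of the
subset `h` (which contain `w` and not `v`).  This holds if `h` is a half-space of a CAT(0) cube
complex with set of vertices `V`, on which `G` acts by automorphisms. -/
def Discrete (G : Type) [Group G] {V : Type} [MulAction G V] (h : Set V) : Prop :=
  ∀ v w : V, {U : Set V | (∃ g : G, g • h = U) ∧ w ∈ U ∧ v ∉ U}.Finite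

/-- The half-spaces `A` and `B` are transverse: all four corners are nonempty. -/
def Transverse {V : Type} (A B : Set V) : Prop :=
  (A ∩ B).Nonempty ∧ (A ∩ Bᶜ).Nonempty ∧ (Aᶜ ∩ B).Nonempty ∧ (Aᶜ ∩ Bᶜ).Nonempty

/-- There is no infinite set of pairwise transverse translates of `h`.  This holds if `h` is a
half-space of a finite-dimensional CAT(0) cube complex. -/
def NoInfiniteCube (G : Type) [Group G] {V : Type} [MulAction G V] (h : Set V) : Prop :=
  ∀ S : Set (Set V), (∀ U ∈ S, ∃ g : G, g • h = U) → S.Pairwise Transverse → S.Finite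

/-- The subgroup of the elements which stabilise both `h` and `h'`. -/
def PairStabilizer (G : Type) [Group G] {V : Type} [MulAction G V] (h h' : Set V) : Subgroup G :=
  MulAction.stabilizer G h ⊓ MulAction.stabilizer G h'

open Pool.Agent.T6.H46.RC Pool.Agent.T6.H46.RR Pool.Agent.H751.WR

/-- Let `G` act geometrically (by isometries, properly discontinuously, cocompactly) on a proper
geodesically complete CAT(0) space `X`.  Let `G` act on a set `V` and let `h' ⊆ h` be subsets of
`V` such that
* any two points of `V` are separated by finitely many translates of `h` and of `h'`, and there is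
  no infinite set of pairwise transverse translates of `h` (for instance `h` and `h'` are
  half-spaces of a finite-dimensional CAT(0) cube complex);
* there are `p`, `q` in `G` with `p h'ᶜ ⊂ h'` and `q h ⊂ hᶜ`;
* the common stabiliser of `h` and `h'` acts cocompactly on a closed convex subset `B` of `X`, and
  contains an element which is rank one in `B`.
Then `G` contains a rank one isometry of `X`, or `X` is isometric to a product `Z × B₀`, where `Z`
and `B₀` have more than one point and `B₀` is a closed convex subset of `B`, on which a subgroup of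
finite index of the common stabiliser acts cocompactly. -/
theorem result {X : Type} [MetricSpace X] [ProperSpace X] (hX : BruhatTits X)
    (hc : GeodesicallyComplete X)
    {G : Type} [Group G] [MulAction G X] [IsIsometricSMul G X] [ProperlyDiscontinuousSMul G X]
    (hcc : ∃ C : Set X, IsCompact C ∧ ∀ x : X, ∃ g : G, g • x ∈ C)
    {V : Type} [MulAction G V] {h h' : Set V} (hle : h' ⊆ h)
    (hd : Discrete G h) (hd' : Discrete G h') (hf : NoInfiniteCube G h)
    (hp : ∃ p : G, p • h'ᶜ ⊂ h') (hq : ∃ q : G, q • h ⊂ hᶜ)
    {B : Set X} (hB : ConvexCocompact (PairStabilizer G h h') B)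
    (hk : ∃ k ∈ PairStabilizer G h h', IsRankOneIn B k) :
    (∃ g : G, IsRankOneIn (univ : Set X) g) ∨
    ∃ B₀ : Set X, B₀ ⊆ B ∧ (∃ W : Subgroup G, W ≤ PairStabilizer G h h' ∧
      W.relIndex (PairStabilizer G h h') ≠ 0 ∧ ConvexCocompact W B₀) ∧ Nontrivial B₀ ∧
      ∃ (Z : Type) (_ : MetricSpace Z) (_ : Nontrivial Z) (e : X ≃ Z × B₀), ∀ x x' : X,
        dist x x' ^ 2 = dist (e x).1 (e x').1 ^ 2 + dist (e x).2 (e x').2 ^ 2 := by
  have hG : Pool.Agent.Y34.HB.Geo X G := ⟨inferInstance, inferInstance, inferInstance, hcc, hX⟩
  obtain ⟨p, hp⟩ := hp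
  obtain ⟨q, hq⟩ := hq
  obtain ⟨k, hkK, τ, c, hτ, hci, hcB, hkc, hno⟩ := hk
  obtain ⟨b1, b2, b3, b4, b5⟩ := hB
  have hB' : CC (PairStabilizer G h h') B := ⟨b1, b2, b3, b4, b5⟩
  have hax : @Pool.Agent.Y34.HB.Axis B _ (PairStabilizer G h h') _ (bact hB') ⟨k, hkK⟩ τ
      (fun t => ⟨c t, hcB t⟩) :=
    ⟨Isometry.of_dist_eq fun s t => hci.dist_eq s t, fun t => Subtype.ext (hkc t)⟩
  have hHP : Pool.Agent.Y34.HB.HP (fun t => (⟨c t, hcB t⟩ : B)) = ∅ := by
    rw [eq_empty_iff_forall_notMem]
    rintro H ⟨h1, h2⟩
    exact hno ⟨fun z => H z, h1, fun z => (H z).2, fun t => congrArg Subtype.val (h2 t)⟩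
  have hK : ∀ s : G, s ∈ PairStabilizer G h h' ↔ s • h = h ∧ s • h' = h' := by
    intro s
    rw [PairStabilizer, Subgroup.mem_inf, MulAction.mem_stabilizer_iff,
      MulAction.mem_stabilizer_iff]
  rcases mainW hG hc hB' ⟨k, hkK⟩ hτ hax hHP hle hd hd' hf hK hp hq with
    ⟨g, τ', c', hτ', ⟨hc1, hc2⟩, he⟩ | ⟨B₀, hsub, ⟨W, hW1, hW2, h₀⟩, hn, h⟩
  · left
    refine ⟨g, τ', c', hτ', hc1, fun _ => mem_univ _, hc2, ?_⟩
    rintro ⟨H, hH1, -, hH2⟩
    have : H ∈ Pool.Agent.Y34.HB.HP c' := ⟨hH1, hH2⟩
    rw [he] at this
    exact this
  · right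
    exact ⟨B₀, hsub, ⟨W, hW1, hW2, h₀.ne, h₀.closed, h₀.conv, h₀.inv, h₀.cc⟩, hn, h⟩

end Pool.Agent.Results.MP_ff40e8_al.ConvexCocompactWalls
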