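import Pool.Agent.H751.WR.Ab

/-!
# Rank rigidity for CAT(0) groups acting on finite-dimensional cube complexes with a nested pair of
# half-spaces whose common stabiliser is virtually abelian

Let `G` act geometrically on a geodesically complete proper CAT(0) space `X`, and let `G` also act
on a finite-dimensional CAT(0) cube complex `Y`, or on any discrete wall space.  The action on `Y`
need not be proper or cocompact, and `Y` need not be locally finite; `Y` has nothing to do with `X`.
Let `h' ⊆ h` be two half-spaces of `Y` (possibly `h' = h`), such that some `p` in `G` moves the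
complement of `h'` into `h'`, and some `q` in `G` moves `h` into the complement of `h` (both
strictly); by the flipping lemma of Caprace and Sageev such elements exist for all half-spaces if
`Y` is essential and `G` has no fixed point at infinity.  Theorem: if the common stabiliser of
`h` and `h'` is finitely generated virtually abelian, then `G` contains a rank one isometry of `X`
or `X` is isometric to a product `Y' × ℝ`, where `Y'` has more than one point.

If the common stabiliser is finite then the first alternative holds by known results
(Chatterji-Martin, Sisto); for trees the theorem is known from an earlier run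
(`VirtuallyAbelianSegments`).  The abelian groups may have any rank here.

Idea of the proof.  Let `K` be the common stabiliser of `h` and a translate of `h'` in `h`, such
that `K` is finitely generated virtually abelian of minimal rank.
(1) If `K` is finite then `G` contains a rank one isometry: if `f` skewers a half-space `U`, that is
`f U ⊂ U`, and the common stabiliser of `U` and `f ^ n U` is finite, then `f` is a rank one
isometry of `X`.  Otherwise an axis of `f` bounds a flat half-plane, there are detours of linear
length around large balls, they cross the walls `f ^ (nk) U`, two consecutive crossings are often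
close to each other, and the pigeonhole principle gives infinitely many elements which stabilise
both `U` and `f ^ n U`.
(2) If `K` is infinite, let `A` be an abelian subgroup of finite index of `K`, and let `H` be the
subgroup of the `g` such that all elements of `A` have powers in `g A g⁻¹` and in `g⁻¹ A g`.  If the
pairs `(h, h')` and `g(h, h')` are nested, then the common stabiliser of the four half-spaces has
finite index in the one of the two outer half-spaces (finitely many half-spaces are between
them), so it has finite index in `K` by the minimality of the rank, and `g` is in `H`.  If `u` is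
not in `H` then all four corners of `h` and `u h` are nonempty, so half-spaces from different
cosets of `H` are transverse, and `H` has finite index in `G` since `Y` has finite dimension.
(3) A subgroup of finite index of `G` commensurates an infinite finitely generated abelian group,
so `X` splits off a line.
-/

set_option autoImplicit false

namespace Pool.Agent.Results.MP_ff40e8_al.VirtuallyAbelianWalls

open Set Metric Pointwise

/-- The inequality of Bruhat and Tits: a complete metric space is CAT(0) if and only if any two
points `p`, `q` have a midpoint `m` such that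
`d(x, m)² ≤ (d(x, p)² + d(x, q)²) / 2 - d(p, q)² / 4` for all `x`. -/
def BruhatTits (X : Type) [MetricSpace X] : Prop := ∀ p q : X, ∃ m : X, ∀ x : X,
  dist x m ^ 2 ≤ (dist x p ^ 2 + dist x q ^ 2) / 2 - dist p q ^ 2 / 4

/-- Every geodesic segment extends to a geodesic line: for `p ≠ q` there is a line through `p` and
`q` (in a CAT(0) space it contains the unique geodesic segment from `p` to `q`). -/
def GeodesicallyComplete (X : Type) [MetricSpace X] : Prop :=
  ∀ p q : X, p ≠ q → ∃ c : ℝ → X, Isometry c ∧ c 0 = p ∧ c (dist p q) = q

/-- The line `c` bounds a flat half-plane: there is an isometric embedding `H` of the Euclidean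
half-plane `ℝ × [0, ∞)` in `X` which extends `c`. -/
def BoundsHalfPlane {X : Type} [MetricSpace X] (c : ℝ → X) : Prop :=
  ∃ H : ℝ × NNReal → X,
    (∀ p q : ℝ × NNReal, dist (H p) (H q) ^ 2 = (p.1 - q.1) ^ 2 + ((p.2 : ℝ) - q.2) ^ 2) ∧
    ∀ t : ℝ, H (t, 0) = c t

/-- `g` is a rank one isometry of `X`: it translates a geodesic line `c` by `τ > 0`, and this axis
does not bound a flat half-plane. -/
def IsRankOne (X : Type) [MetricSpace X] {G : Type} [Group G] [MulAction G X] (g : G) : Prop :=
  ∃ (τ : ℝ) (c : ℝ → X), 0 < τ ∧ Isometry c ∧ (∀ t, g • c t = c (t + τ)) ∧ ¬ BoundsHalfPlane c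

/-- `X` is isometric to the product (with the `ℓ²` metric) of a metric space with more than one
point and the line. -/
def SplitsOffLine (X : Type) [MetricSpace X] : Prop :=
  ∃ (Y : Type) (_ : MetricSpace Y) (_ : Nontrivial Y) (e : X ≃ Y × ℝ), ∀ x x' : X,
    dist x x' ^ 2 = dist (e x).1 (e x').1 ^ 2 + dist (e x).2 (e x').2 ^ 2

/-- The subgroup `K` has a finitely generated abelian subgroup of finite index. -/
def FGVirtuallyAbelian {G : Type} [Group G] (K : Subgroup G) : Prop :=
  ∃ A : Subgroup G, A ≤ K ∧ A.relIndex K ≠ 0 ∧ A.FG ∧ ∀ a ∈ A, ∀ b ∈ A, a * b = b * a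

/-- Any two points `v`, `w` of the `G`-set `V` are separated by finitely many translates of the
subset `h` (which contain `w` and not `v`).  This holds if `h` is a half-space of a CAT(0) cube
complex with set of vertices `V`, on which `G` acts by automorphisms. -/
def Discrete (G : Type) [Group G] {V : Type} [MulAction G V] (h : Set V) : Prop :=
  ∀ v w : V, {U : Set V | (∃ g : G, g • h = U) ∧ w ∈ U ∧ v ∉ U}.Finite

/-- The half-spaces `A` and `B` are transverse: all four corners are nonempty. -/
def Transverse {V : Type} (A B : Set V) : Prop :=
  (A ∩ B).Nonempty ∧ (A ∩ Bᶜ).Nonempty ∧ (Aᶜ ∩ B).Nonempty ∧ (Aᶜ ∩ Bᶜ).Nonempty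

/-- There is no infinite set of pairwise transverse translates of `h`.  This holds if `h` is a
half-space of a finite-dimensional CAT(0) cube complex. -/
def NoInfiniteCube (G : Type) [Group G] {V : Type} [MulAction G V] (h : Set V) : Prop :=
  ∀ S : Set (Set V), (∀ U ∈ S, ∃ g : G, g • h = U) → S.Pairwise Transverse → S.Finite

/-- The subgroup of the elements which stabilise both `h` and `h'`. -/
def PairStabilizer (G : Type) [Group G] {V : Type} [MulAction G V] (h h' : Set V) : Subgroup G :=
  MulAction.stabilizer G h ⊓ MulAction.stabilizer G h'

open Pool.Agent.T6.H46.RR Pool.Agent.H751.WR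

lemma va_of {G : Type} [Group G] {K : Subgroup G} (h : FGVirtuallyAbelian K) :
    ∃ r, VA K r := by
  obtain ⟨A, hle, hidx, hfg, hcomm⟩ := h
  let _ : CommGroup A := { (inferInstance : Group A) with
    mul_comm := fun a b => Subtype.ext (hcomm a a.2 b b.2) }
  have h1 : Group.FG A := (Group.fg_iff_subgroup_fg A).2 hfg
  have h2 : AddGroup.FG (Additive A) := inferInstance
  have h3 : Module.Finite ℤ (Additive A) := Module.Finite.iff_addGroup_fg.2 h2
  let φ : Multiplicative (Additive A) →* G :=
    A.subtype.comp (MulEquiv.multiplicativeAdditive A).toMonoidHom
  have hr : φ.range = A := by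
    ext g
    constructor
    · rintro ⟨a, rfl⟩
      exact ((MulEquiv.multiplicativeAdditive A) a).2
    · intro hg
      exact ⟨(MulEquiv.multiplicativeAdditive A).symm ⟨g, hg⟩, rfl⟩
  refine ⟨_, Additive A, inferInstance, h3, φ, ?_, ?_, ?_, rfl⟩
  · intro a b hab
    exact (MulEquiv.multiplicativeAdditive A).injective (Subtype.ext hab)
  · rw [hr]; exact hle
  · rw [hr]; exact hidx

/-- Let `G` act geometrically (by isometries, properly discontinuously, cocompactly) on a nonempty
proper geodesically complete CAT(0) space `X`.  Let `G` act on a set `V` and let `h' ⊆ h` be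
subsets of `V` such that
* any two points of `V` are separated by finitely many translates of `h` and of `h'`, and there is
  no infinite set of pairwise transverse translates of `h` (for instance `h` and `h'` are
  half-spaces of a finite-dimensional CAT(0) cube complex);
* there are `p`, `q` in `G` with `p h'ᶜ ⊂ h'` and `q h ⊂ hᶜ`;
* the common stabiliser of `h` and `h'` is finitely generated virtually abelian.
Then `G` contains a rank one isometry of `X`, or `X` is isometric to `Y × ℝ`, where `Y` has more
than one point. -/
theorem result {X : Type} [MetricSpace X] [ProperSpace X] [Nonempty X] (hX : BruhatTits X)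
    (hc : GeodesicallyComplete X)
    {G : Type} [Group G] [MulAction G X] [IsIsometricSMul G X] [ProperlyDiscontinuousSMul G X]
    (hcc : ∃ C : Set X, IsCompact C ∧ ∀ x : X, ∃ g : G, g • x ∈ C)
    {V : Type} [MulAction G V] {h h' : Set V} (hle : h' ⊆ h)
    (hd : Discrete G h) (hd' : Discrete G h') (hf : NoInfiniteCube G h)
    (hp : ∃ p : G, p • h'ᶜ ⊂ h') (hq : ∃ q : G, q • h ⊂ hᶜ)
    (hK : FGVirtuallyAbelian (PairStabilizer G h h')) :
    (∃ g : G, IsRankOne X g) ∨ SplitsOffLine X := by
  have hG : Pool.Agent.Y34.HB.Geo X G := ⟨inferInstance, inferInstance, inferInstance, hcc, hX⟩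
  obtain ⟨o⟩ : Nonempty X := inferInstance
  obtain ⟨p, hp⟩ := hp
  obtain ⟨q, hq⟩ := hq
  obtain ⟨r, hr⟩ := va_of hK
  rcases mainA hG hc o hle hd hd' hf hp hq (r := r) hr with ⟨g, τ, c, hτ, ⟨hc1, hc2⟩, he⟩ | hs
  · left
    refine ⟨g, τ, c, hτ, hc1, hc2, ?_⟩
    rintro ⟨H, hH1, hH2⟩
    have : H ∈ Pool.Agent.Y34.HB.HP c := ⟨hH1, hH2⟩
    rw [he] at this
    exact this
  · exact Or.inr hs

end Pool.Agent.Results.MP_ff40e8_al.VirtuallyAbelianWalls
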